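import Mathlib

/-! Project EC, part D7: levels and real inequalities. -/

set_option autoImplicit false

namespace Pool.Agent.W409.EC

open Finset Filter

lemma loglog_step {n : ℕ} (hn : 2 ≤ n) : Real.log (Real.log ((n + 1 : ℕ) : ℝ)) -
    Real.log (Real.log (n : ℝ)) ≤ 1 / ((n : ℝ) * Real.log n) := by
  have hn0 : (0 : ℝ) < n := by positivity
  have hl : 0 < Real.log (n : ℝ) := Real.log_pos (by exact_mod_cast hn)
  have hl' : 0 < Real.log ((n + 1 : ℕ) : ℝ) := Real.log_pos (by exact_mod_cast (by omega : 1 < n + 1))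
  rw [← Real.log_div hl'.ne' hl.ne']
  have h1 : Real.log ((n + 1 : ℕ) : ℝ) ≤ Real.log (n : ℝ) + 1 / n := by
    have h2 : Real.log ((n + 1 : ℕ) : ℝ) - Real.log (n : ℝ) ≤ 1 / n := by
      rw [← Real.log_div (by positivity) hn0.ne']
      refine (Real.log_le_sub_one_of_pos (by positivity)).trans (le_of_eq ?_)
      push_cast
      field_simp
      ring
    linarith
  refine (Real.log_le_sub_one_of_pos (by positivity)).trans ?_
  rw [div_sub_one hl.ne', div_le_div_iff₀ hl (by positivity)]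
  have h3 : (Real.log ((n + 1 : ℕ) : ℝ) - Real.log (n : ℝ)) * n ≤ 1 := by
    have h4 : Real.log ((n + 1 : ℕ) : ℝ) - Real.log (n : ℝ) ≤ 1 / n := by linarith
    calc _ ≤ 1 / (n : ℝ) * n := mul_le_mul_of_nonneg_right h4 hn0.le
      _ = 1 := by field_simp
  nlinarith

lemma log_fact_le (n : ℕ) : Real.log ((n.factorial : ℕ) : ℝ) ≤ n * Real.log n := by
  rcases Nat.eq_zero_or_pos n with h | h
  · subst h; simp
  · rw [← Real.log_pow]
    refine Real.log_le_log (by exact_mod_cast n.factorial_pos) ?_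
    exact_mod_cast Nat.factorial_le_pow n

/-- the levels -/
lemma levels (J S : ℝ) (Qm : ℕ) : ∃ (Q : ℕ → ℕ) (I : ℕ), (∀ i, Qm ≤ Q i) ∧ (∀ i, 2 ≤ Q i) ∧
    (∀ i, J * Real.log (Q i) * Q i ≤ Q (i + 1)) ∧ (∀ i, Q i ≤ Q (i + 1)) ∧
    S ≤ ∑ i ∈ range I, 1 / Real.log (Q i) := by
  have h1 : ∀ᶠ n : ℕ in atTop, 2 * |J| * Real.log n ≤ n := by
    have h2 := (Real.isLittleO_log_id_atTop.comp_tendsto tendsto_natCast_atTop_atTop)
    have h3 := h2.def (c := 1 / (2 * |J| + 1)) (by positivity)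
    filter_upwards [h3, eventually_ge_atTop 1] with n hn hn1
    simp only [Function.comp, id, Real.norm_eq_abs] at hn
    have e1 : |Real.log (n : ℝ)| = Real.log n :=
      abs_of_nonneg (Real.log_nonneg (by exact_mod_cast hn1))
    have e2 : |(n : ℝ)| = n := abs_of_nonneg (by positivity)
    rw [e1, e2] at hn
    have h4 : (2 * |J| + 1) * Real.log n ≤ n := by
      calc (2 * |J| + 1) * Real.log n ≤ (2 * |J| + 1) * (1 / (2 * |J| + 1) * n) :=
            mul_le_mul_of_nonneg_left hn (by positivity)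
        _ = n := by field_simp
    have h5 : 0 ≤ Real.log n := Real.log_nonneg (by exact_mod_cast hn1)
    nlinarith
  obtain ⟨m0, hm0⟩ := eventually_atTop.1 h1
  set m := m0 + Qm + 2 with hm
  have hlogpos : ∀ n : ℕ, 2 ≤ n → 0 < Real.log (n : ℝ) := fun n hn =>
    Real.log_pos (by exact_mod_cast hn)
  have hQlog : ∀ i, Real.log (((((i + m).factorial) ^ 2 : ℕ)) : ℝ) ≤
      2 * (((i + m : ℕ) : ℝ) * Real.log ((i + m : ℕ) : ℝ)) := by
    intro i
    push_cast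
    rw [Real.log_pow]
    have := log_fact_le (i + m)
    push_cast at this ⊢
    linarith
  have hfac2 : ∀ i, 2 ≤ (i + m).factorial := fun i =>
    le_trans (by omega : 2 ≤ i + m) (Nat.self_le_factorial _)
  have hQpos : ∀ i, 0 < Real.log (((((i + m).factorial) ^ 2 : ℕ)) : ℝ) := by
    intro i
    refine Real.log_pos ?_
    have := hfac2 i
    exact_mod_cast (by nlinarith : 1 < ((i + m).factorial) ^ 2)
  have hsum : ∀ I : ℕ, (Real.log (Real.log ((I + m : ℕ) : ℝ)) - Real.log (Real.log (m : ℝ))) / 2 ≤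
      ∑ i ∈ range I, 1 / Real.log (((((i + m).factorial) ^ 2 : ℕ)) : ℝ) := by
    intro I
    induction I with
    | zero => simp
    | succ I ih =>
      rw [Finset.sum_range_succ]
      have h2 := loglog_step (n := I + m) (by omega)
      have h3 : 1 / (2 * (((I + m : ℕ) : ℝ) * Real.log ((I + m : ℕ) : ℝ))) ≤
          1 / Real.log (((((I + m).factorial) ^ 2 : ℕ)) : ℝ) :=
        one_div_le_one_div_of_le (hQpos I) (hQlog I)
      have h4 : 1 / (2 * (((I + m : ℕ) : ℝ) * Real.log ((I + m : ℕ) : ℝ))) =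
          1 / (((I + m : ℕ) : ℝ) * Real.log ((I + m : ℕ) : ℝ)) / 2 := by
        have := hlogpos (I + m) (by omega)
        have h5 : (0 : ℝ) < ((I + m : ℕ) : ℝ) := by exact_mod_cast (by omega : 0 < I + m)
        field_simp
      have h6 : I + 1 + m = I + m + 1 := by omega
      rw [h6]
      linarith
  have htend : Tendsto (fun I : ℕ => Real.log (Real.log ((I + m : ℕ) : ℝ))) atTop atTop := by
    refine Real.tendsto_log_atTop.comp (Real.tendsto_log_atTop.comp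
      (tendsto_natCast_atTop_atTop.comp (tendsto_add_atTop_nat m)))
  obtain ⟨I, hI⟩ := (htend.eventually_ge_atTop (2 * S + Real.log (Real.log (m : ℝ)))).exists
  refine ⟨fun i => ((i + m).factorial) ^ 2, I, ?_, ?_, ?_, ?_, ?_⟩
  · intro i
    have h2 : i + m ≤ (i + m).factorial := Nat.self_le_factorial _
    have h3 : (i + m).factorial ≤ (i + m).factorial ^ 2 := Nat.le_self_pow (by norm_num) _
    show Qm ≤ (i + m).factorial ^ 2
    omega
  · intro i
    have h2 := hfac2 i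
    have h3 : (i + m).factorial ≤ (i + m).factorial ^ 2 := Nat.le_self_pow (by norm_num) _
    show 2 ≤ (i + m).factorial ^ 2
    omega
  · intro i
    show J * Real.log (((((i + m).factorial) ^ 2 : ℕ)) : ℝ) * ((((i + m).factorial) ^ 2 : ℕ) : ℝ) ≤
      ((((i + 1 + m).factorial) ^ 2 : ℕ) : ℝ)
    have h2 : i + 1 + m = (i + m) + 1 := by omega
    rw [h2, Nat.factorial_succ, mul_pow]
    push_cast
    refine mul_le_mul_of_nonneg_right ?_ (by positivity)
    have h3 := hQlog i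
    have h4 := hm0 (i + m) (by omega)
    have h5 : (0 : ℝ) ≤ ((i + m : ℕ) : ℝ) := by positivity
    have h6 := (hQpos i).le
    push_cast at h3 h4 h5 h6 ⊢
    have h7 : J * Real.log (((i + m).factorial : ℝ) ^ 2) ≤
        |J| * Real.log (((i + m).factorial : ℝ) ^ 2) :=
      mul_le_mul_of_nonneg_right (le_abs_self J) h6
    have h8 : |J| * Real.log (((i + m).factorial : ℝ) ^ 2) ≤
        |J| * (2 * (((i : ℝ) + m) * Real.log ((i : ℝ) + m))) :=
      mul_le_mul_of_nonneg_left h3 (abs_nonneg J)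
    have h9 : (2 * |J| * Real.log ((i : ℝ) + m)) * ((i : ℝ) + m) ≤ ((i : ℝ) + m) * ((i : ℝ) + m) :=
      mul_le_mul_of_nonneg_right h4 h5
    nlinarith
  · intro i
    show (i + m).factorial ^ 2 ≤ (i + 1 + m).factorial ^ 2
    exact Nat.pow_le_pow_left (Nat.factorial_le (by omega)) 2
  · refine le_trans ?_ (hsum I)
    linarith

lemma ell_le (a N : ℕ) (ha : 1 ≤ a) (haN : a ≤ N) :
    ∑ X ∈ Ioc a N, 1 / (X : ℝ) ≤ Real.log N := by
  have h : ∑ X ∈ Ioc a N, 1 / (X : ℝ) ≤ Real.log N - Real.log a := by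
    induction N, haN using Nat.le_induction with
    | base => simp
    | succ n hn ih =>
      have h0 : Ioc a (n + 1) = insert (n + 1) (Ioc a n) := by
        ext x
        simp only [Finset.mem_Ioc, Finset.mem_insert]
        omega
      rw [h0, Finset.sum_insert (by simp)]
      have hn0 : (0 : ℝ) < n := by
        have : 0 < n := by omega
        exact_mod_cast this
      have h1 : 1 / ((n + 1 : ℕ) : ℝ) ≤ Real.log ((n + 1 : ℕ) : ℝ) - Real.log n := by
        rw [← Real.log_div (by positivity) hn0.ne']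
        have h2 := Real.one_sub_inv_le_log_of_pos (x := ((n + 1 : ℕ) : ℝ) / n) (by positivity)
        refine le_trans (le_of_eq ?_) h2
        push_cast
        field_simp
        ring
      linarith
  have h2 : 0 ≤ Real.log (a : ℝ) := Real.log_nonneg (by exact_mod_cast ha)
  linarith

/-- the decrement -/
lemma decr {W' W h' h cD sl cP ℓ Kr q q' lq δ c₁ C₁ c₂ C₂ CA J : ℝ} (hK : 1 ≤ Kr) (hq : 0 < q)
    (hq' : 0 < q') (hlq : 0 < lq) (hδ : 0 < δ) (hc₁ : 0 < c₁) (hC₁ : 0 < C₁) (hc₂ : 0 < c₂)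
    (hC₂ : 0 < C₂) (hℓ : 0 ≤ ℓ) (hsl : 0 ≤ sl) (hW'0 : 0 ≤ W')
    (e1 : h' ≤ W' * (4 * sl) + (CA * W + cD)) (e2 : cD < h - δ * cP * W)
    (e3 : W' ≤ C₁ * ℓ / (Kr * q')) (e4 : c₁ * ℓ / (Kr * q) ≤ W) (e5 : sl ≤ C₂ * q)
    (e6 : c₂ * q / lq ≤ cP) (hJ : J = 16 * C₁ * C₂ / (δ * c₁ * c₂)) (e7 : J * lq * q ≤ q')
    (e8 : 4 * CA / δ ≤ cP) : h' ≤ h - (δ / 2 * c₁ * c₂ / Kr) * ℓ * (1 / lq) := by
  have hKr : 0 < Kr := by linarith
  have hW0 : 0 ≤ W := le_trans (by positivity) e4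
  have t1 : W' * (4 * sl) ≤ (δ / 4 * c₁ * c₂ / Kr) * ℓ * (1 / lq) := by
    have s1 : W' * (4 * sl) ≤ C₁ * ℓ / (Kr * q') * (4 * (C₂ * q)) := by
      gcongr
    refine s1.trans ?_
    have s2 : 16 * C₁ * C₂ * lq * q ≤ δ * c₁ * c₂ * q' := by
      rw [hJ] at e7
      have : 16 * C₁ * C₂ / (δ * c₁ * c₂) * lq * q = 16 * C₁ * C₂ * lq * q / (δ * c₁ * c₂) := by
        ring
      rw [this, div_le_iff₀ (by positivity)] at e7
      linarith
    have s3 : C₁ * ℓ / (Kr * q') * (4 * (C₂ * q)) = 4 * C₁ * C₂ * q * ℓ / (Kr * q') := by ring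
    have s4 : (δ / 4 * c₁ * c₂ / Kr) * ℓ * (1 / lq) = δ * c₁ * c₂ * ℓ / (4 * Kr * lq) := by
      field_simp
    rw [s3, s4, div_le_div_iff₀ (by positivity) (by positivity)]
    have s5 := mul_le_mul_of_nonneg_right s2 (mul_nonneg hℓ hKr.le)
    nlinarith
  have t2 : CA * W ≤ δ / 4 * cP * W := by
    refine mul_le_mul_of_nonneg_right ?_ hW0
    rw [div_le_iff₀ hδ] at e8
    linarith
  have t3 : (δ * c₁ * c₂ / Kr) * ℓ * (1 / lq) ≤ δ * cP * W := by
    have s1 : δ * (c₂ * q / lq) * (c₁ * ℓ / (Kr * q)) ≤ δ * cP * W := by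
      have hcP0 : 0 ≤ cP := le_trans (by positivity) e6
      exact mul_le_mul (mul_le_mul_of_nonneg_left e6 hδ.le) e4 (by positivity)
        (mul_nonneg hδ.le hcP0)
    refine le_trans (le_of_eq ?_) s1
    field_simp
  have t4 : (δ / 4 * c₁ * c₂ / Kr) * ℓ * (1 / lq) =
      (δ * c₁ * c₂ / Kr) * ℓ * (1 / lq) / 4 := by ring
  have t5 : (δ / 2 * c₁ * c₂ / Kr) * ℓ * (1 / lq) =
      (δ * c₁ * c₂ / Kr) * ℓ * (1 / lq) / 2 := by ring
  have t6 : δ / 4 * cP * W = δ * cP * W / 4 := by ring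
  rw [t5]
  rw [t4] at t1
  rw [t6] at t2
  linarith

/-- the final estimate -/
lemma fin_est {W ℓ q lq cP s2 L L0 B ε τ0 δ C₁ C₂ : ℝ} (hq : 0 < q) (hlq : 0 < lq) (hε : 0 < ε)
    (hC₁ : 0 < C₁) (hC₂ : 0 < C₂) (hL0 : 0 < L0) (hL : L ≤ L0) (hW0 : 0 ≤ W) (hℓ : 0 ≤ ℓ)
    (hW : W * q ≤ C₁ * ℓ) (hcP : lq * cP ≤ C₂ * q) (hs2 : s2 ≤ 2 * lq * (C₂ * q))
    (hτ0 : τ0 = ε / (12 * (B ^ 2 + 1) * C₁ * C₂)) (hδ : δ = ε * τ0 / (3 * C₁ * C₂))
    (hbig : lq ≤ q * (ε * τ0 / (3 * C₁ * L0))) :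
    1 / (τ0 / lq) * (W * L + δ * cP * W) + W * ((τ0 / lq) * (2 * B ^ 2) * s2) ≤ ε * ℓ := by
  have hτp : 0 < τ0 := by rw [hτ0]; positivity
  have hδp : 0 < δ := by rw [hδ]; positivity
  have t1 : lq / τ0 * (W * L) ≤ ε * ℓ / 3 := by
    calc lq / τ0 * (W * L) ≤ lq / τ0 * (W * L0) := by gcongr
      _ ≤ q * (ε * τ0 / (3 * C₁ * L0)) / τ0 * (W * L0) := by gcongr
      _ = (W * q) * (ε / (3 * C₁)) := by field_simp
      _ ≤ (C₁ * ℓ) * (ε / (3 * C₁)) := by gcongr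
      _ = ε * ℓ / 3 := by field_simp
  have t2 : lq / τ0 * (δ * cP * W) ≤ ε * ℓ / 3 := by
    calc lq / τ0 * (δ * cP * W) = (lq * cP) * (δ / τ0 * W) := by ring
      _ ≤ (C₂ * q) * (δ / τ0 * W) := by gcongr
      _ = (W * q) * (C₂ * δ / τ0) := by ring
      _ ≤ (C₁ * ℓ) * (C₂ * δ / τ0) := by gcongr
      _ = ε * ℓ / 3 := by
        rw [hδ]
        field_simp
  have t3 : W * ((τ0 / lq) * (2 * B ^ 2) * s2) ≤ ε * ℓ / 3 := by
    calc W * ((τ0 / lq) * (2 * B ^ 2) * s2) ≤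
        W * ((τ0 / lq) * (2 * B ^ 2) * (2 * lq * (C₂ * q))) := by gcongr
      _ = (W * q) * (4 * τ0 * B ^ 2 * C₂) := by field_simp; ring
      _ ≤ (C₁ * ℓ) * (4 * τ0 * B ^ 2 * C₂) := by gcongr
      _ ≤ ε * ℓ / 3 := by
        have h1 : τ0 * (12 * (B ^ 2 + 1) * C₁ * C₂) = ε := by
          rw [hτ0]
          field_simp
        have h2 : C₁ * ℓ * (4 * τ0 * B ^ 2 * C₂) * 3 ≤ ε * ℓ := by
          rw [← h1]
          have h3 : 0 ≤ τ0 * C₁ * C₂ * ℓ := by positivity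
          nlinarith
        linarith
  have h5 : 1 / (τ0 / lq) = lq / τ0 := by
    field_simp
  rw [h5, mul_add]
  linarith

end Pool.Agent.W409.EC
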