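import Pool.Agent.W409.EC.Good
import Pool.Agent.W409.EC.Real

/-! Project EC, part D7: the entropy decrement argument. -/

set_option autoImplicit false

namespace Pool.Agent.W409.EC

open Finset
open Pool.Agent.W78.GA Pool.Agent.W78.EC

lemma ce_Rr (h1 : S_CE) (K q X₀ N : ℕ) (P : Finset ℕ) (hP : ∀ p ∈ P, 1 ≤ p) :
    cE (Om K q X₀ N) wt (Rr P) (fun _ => ()) ≤
      WW K q X₀ N * (4 * ∑ p ∈ P, Real.log p) := by
  classical
  have hw : ∀ ω ∈ Om K q X₀ N, 0 ≤ wt ω := fun ω _ => wt_nonneg ω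
  let t : Finset (ℕ → ℕ × ℕ × ℕ × ℕ) :=
    (P.pi (fun p => range p ×ˢ range p ×ˢ range p ×ˢ range p)).image
      (fun f p => if h : p ∈ P then f p h else default)
  have ht : t.card ≤ ∏ p ∈ P, p ^ 4 := by
    refine Finset.card_image_le.trans ?_
    rw [Finset.card_pi]
    refine le_of_eq (Finset.prod_congr rfl fun p _ => ?_)
    simp only [Finset.card_product, Finset.card_range]
    ring
  have hmem : ∀ ω ∈ Om K q X₀ N, Rr P ω ∈ t := by
    intro ω _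
    refine Finset.mem_image.2 ⟨fun p _ => res p ω.2, ?_, ?_⟩
    · rw [Finset.mem_pi]
      intro p hp
      unfold res
      simp only [Finset.mem_product, Finset.mem_range]
      exact ⟨rs_lt (hP p hp) _, rs_lt (hP p hp) _, rs_lt (hP p hp) _, rs_lt (hP p hp) _⟩
    · funext p
      unfold Rr rsf
      by_cases hp : p ∈ P
      · simp [hp]
      · simp [hp]
  have hpos : 1 ≤ ∏ p ∈ P, p ^ 4 :=
    Nat.one_le_iff_ne_zero.2 (Finset.prod_ne_zero_iff.2 fun p hp =>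
      pow_ne_zero 4 (by have := hP p hp; omega))
  have h2 := ce_card h1 hw (Rr P) (fun _ => ()) (∏ p ∈ P, p ^ 4) hpos t ht hmem
  have h3 : Real.log ((∏ p ∈ P, p ^ 4 : ℕ) : ℝ) = 4 * ∑ p ∈ P, Real.log p := by
    push_cast
    rw [Real.log_prod (fun p hp => pow_ne_zero 4 (by
      have := hP p hp
      exact_mod_cast (by omega : p ≠ 0))), Finset.mul_sum]
    refine Finset.sum_congr rfl fun p _ => ?_
    rw [Real.log_pow]
    norm_num
  rw [h3] at h2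
  exact h2

lemma WW_bounds {c C Y₁ : ℝ} (hE : ∀ Y : ℝ, Y₁ ≤ Y → c * Y ≤ ((edge 0 1 Y).card : ℝ) ∧
    ((edge 0 1 Y).card : ℝ) ≤ C * Y) (K q X₀ N : ℕ)
    (hX : ∀ X ∈ Ioc X₀ N, Y₁ ≤ (X : ℝ) / (K * q)) :
    c * (∑ X ∈ Ioc X₀ N, 1 / (X : ℝ)) / (K * q) ≤ WW K q X₀ N ∧
      WW K q X₀ N ≤ C * (∑ X ∈ Ioc X₀ N, 1 / (X : ℝ)) / (K * q) := by
  rw [WW_eq]
  have h1 : ∀ (a : ℝ), a * (∑ X ∈ Ioc X₀ N, 1 / (X : ℝ)) / (K * q) =
      ∑ X ∈ Ioc X₀ N, 1 / (X : ℝ) ^ 2 * (a * ((X : ℝ) / (K * q))) := by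
    intro a
    rw [Finset.mul_sum, Finset.sum_div]
    refine Finset.sum_congr rfl fun X hX => ?_
    have hX0 : (X : ℝ) ≠ 0 := by
      rw [Finset.mem_Ioc] at hX
      have : 0 < X := by omega
      positivity
    field_simp
  rw [h1, h1]
  constructor
  · exact Finset.sum_le_sum fun X hX' =>
      mul_le_mul_of_nonneg_left (hE _ (hX X hX')).1 (by positivity)
  · exact Finset.sum_le_sum fun X hX' =>
      mul_le_mul_of_nonneg_left (hE _ (hX X hX')).2 (by positivity)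

lemma WW_nonneg (K q X₀ N : ℕ) : 0 ≤ WW K q X₀ N := Finset.sum_nonneg fun ω _ => wt_nonneg ω

theorem dcp (h1 : S_CE) (h2 : S_TUP) (h3 : S_CODE) (h4 : S_DV) (h5 : S_TREE) (h6 : S_ECNT)
    (h7 : S_PCNT) (h8 : S_RESC) : S_DCP := by
  classical
  intro A _ K B ε hK hε Q₁
  obtain ⟨CA, hCA0, hCA⟩ := h3 A
  obtain ⟨c₁, C₁, Y₁, hc₁, hE⟩ := h6
  obtain ⟨c₂, C₂, hc₂, Qp, hP⟩ := h7
  obtain ⟨Cr, hCr, hR⟩ := h8
  have hC₁ : 0 < C₁ := by
    obtain ⟨e1, e2⟩ := hE (max Y₁ 1) (le_max_left _ _)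
    have e3 : (0 : ℝ) < max Y₁ 1 := lt_of_lt_of_le one_pos (le_max_right _ _)
    have e4 := le_of_mul_le_mul_right (e1.trans e2) e3
    linarith
  have hC₂ : 0 < C₂ := by
    obtain ⟨-, -, e1, e2⟩ := hP (max Qp 1) (le_max_left _ _)
    have e3 : (0 : ℝ) < ((max Qp 1 : ℕ) : ℝ) := by
      exact_mod_cast lt_of_lt_of_le one_pos (le_max_right _ _)
    have e4 := le_of_mul_le_mul_right (e1.trans e2) e3
    linarith
  have hKr : (1 : ℝ) ≤ (K : ℝ) := by exact_mod_cast hK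
  have hK0 : (0 : ℝ) < (K : ℝ) := by linarith
  set τ0 : ℝ := ε / (12 * (B ^ 2 + 1) * C₁ * C₂) with hτ0
  have hτp : 0 < τ0 := by rw [hτ0]; positivity
  set δ : ℝ := ε * τ0 / (3 * C₁ * C₂) with hδ
  have hδp : 0 < δ := by rw [hδ]; positivity
  set L0 : ℝ := |Real.log 2 + Real.log (Cr / c₁)| + 1 with hL0
  have hL0p : 0 < L0 := by rw [hL0]; positivity
  have hsmall : ∀ η : ℝ, 0 < η → ∃ Qm : ℕ, ∀ q : ℕ, Qm ≤ q → Real.log q ≤ q * η := by
    intro η hη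
    have e1 := (Real.isLittleO_log_id_atTop.comp_tendsto tendsto_natCast_atTop_atTop).def hη
    obtain ⟨n0, hn0⟩ := Filter.eventually_atTop.1 e1
    refine ⟨max n0 1, fun q hq => ?_⟩
    have e2 := hn0 q ((le_max_left _ _).trans hq)
    simp only [Function.comp, id, Real.norm_eq_abs] at e2
    have e3 : |Real.log (q : ℝ)| = Real.log q := abs_of_nonneg
      (Real.log_nonneg (by exact_mod_cast (le_max_right _ _).trans hq))
    have e4 : |(q : ℝ)| = q := abs_of_nonneg (by positivity)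
    rw [e3, e4] at e2
    linarith
  obtain ⟨Qa, hQa⟩ := hsmall (ε * τ0 / (3 * C₁ * L0)) (by positivity)
  obtain ⟨Qb, hQb⟩ := hsmall (c₂ * δ / (4 * CA)) (by positivity)
  set J : ℝ := 16 * C₁ * C₂ / (δ * c₁ * c₂) with hJ
  set θ : ℝ := δ / 2 * c₁ * c₂ / K with hθ
  have hθp : 0 < θ := by rw [hθ]; positivity
  obtain ⟨Q, I, hQm, hQ2, hQJ, hQmono, hS⟩ := levels J (CA * C₁ / θ + 1) (Qp + Qa + Qb + Q₁ + 1)
  have hmono : Monotone Q := monotone_nat_of_le_succ hQmono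
  have hprime : ∀ i, ∀ p ∈ PQ (Q i), p.Prime := fun i p hp => (mem_PQ hp).2.2
  choose Yr hYr using fun i => hR (PQ (Q i)) (hprime i)
  set M : ℝ := 2 + |Y₁| + ∑ i ∈ range I, |Yr i| with hM
  have hM2 : 2 ≤ M := by
    rw [hM]
    have e1 : 0 ≤ ∑ i ∈ range I, |Yr i| := Finset.sum_nonneg fun i _ => abs_nonneg _
    have e2 := abs_nonneg Y₁
    linarith
  have hMY : Y₁ ≤ M := by
    rw [hM]
    have e1 : 0 ≤ ∑ i ∈ range I, |Yr i| := Finset.sum_nonneg fun i _ => abs_nonneg _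
    have e2 := le_abs_self Y₁
    linarith
  have hMr : ∀ i < I, Yr i ≤ M := by
    intro i hi
    rw [hM]
    have e1 : |Yr i| ≤ ∑ i ∈ range I, |Yr i| :=
      Finset.single_le_sum (f := fun i => |Yr i|) (fun i _ => abs_nonneg _) (Finset.mem_range.2 hi)
    have e2 := le_abs_self (Yr i)
    have e3 := abs_nonneg Y₁
    linarith
  refine ⟨Q I, ⌈(K : ℝ) * Q I * M⌉₊ + 1, ⌈(K : ℝ) * Q I * M⌉₊ + 1 + 1, fun N hN lab => ?_⟩
  set X₀ : ℕ := ⌈(K : ℝ) * Q I * M⌉₊ + 1 with hX₀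
  have hQr2 : ∀ i, (2 : ℝ) ≤ (Q i : ℝ) := fun i => by exact_mod_cast hQ2 i
  have hQr0 : ∀ i, (0 : ℝ) < (Q i : ℝ) := fun i => by linarith [hQr2 i]
  have hlq : ∀ i, 0 < Real.log (Q i : ℝ) := fun i => Real.log_pos (by linarith [hQr2 i])
  have hXM : ∀ i ≤ I, ∀ X ∈ Ioc X₀ N, M ≤ (X : ℝ) / (K * Q i) := by
    intro i hi X hX
    rw [Finset.mem_Ioc] at hX
    have e1 : (K : ℝ) * Q I * M ≤ X := by
      refine (Nat.le_ceil _).trans ?_
      exact_mod_cast (by omega : ⌈(K : ℝ) * Q I * M⌉₊ ≤ X)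
    have e2 : (Q i : ℝ) ≤ Q I := by exact_mod_cast hmono hi
    rw [le_div_iff₀ (mul_pos hK0 (hQr0 i))]
    have e3 : M * (K * Q i) ≤ M * (K * Q I) :=
      mul_le_mul_of_nonneg_left (mul_le_mul_of_nonneg_left e2 hK0.le) (by linarith)
    linarith
  have hXX : ∀ i, ∀ X ∈ Ioc X₀ N, (X : ℝ) / (K * Q i) ≤ X := by
    intro i X _
    refine div_le_self (by positivity) ?_
    have e1 := hQr2 i
    nlinarith
  set ℓ : ℝ := ∑ X ∈ Ioc X₀ N, 1 / (X : ℝ) with hℓ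
  have hℓ0 : 0 < ℓ := by
    refine Finset.sum_pos (fun X hX => ?_) ⟨N, Finset.mem_Ioc.2 ⟨by omega, le_rfl⟩⟩
    rw [Finset.mem_Ioc] at hX
    have : 0 < X := by omega
    positivity
  have hℓlog : ℓ ≤ Real.log N := ell_le X₀ N (by omega) (by omega)
  have hWb : ∀ i ≤ I, c₁ * ℓ / (K * Q i) ≤ WW K (Q i) X₀ N ∧
      WW K (Q i) X₀ N ≤ C₁ * ℓ / (K * Q i) := fun i hi =>
    WW_bounds hE K (Q i) X₀ N fun X hX => hMY.trans (hXM i hi X hX)
  have hPr : ∀ i, c₂ * Q i / Real.log (Q i) ≤ ((PQ (Q i)).card : ℝ) ∧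
      ((PQ (Q i)).card : ℝ) ≤ C₂ * Q i / Real.log (Q i) ∧
      c₂ * Q i ≤ ∑ p ∈ PQ (Q i), Real.log p ∧ ∑ p ∈ PQ (Q i), Real.log p ≤ C₂ * Q i :=
    fun i => hP (Q i) (by have := hQm i; omega)
  -- a good level
  have hgood : ∃ i < I, cE (Om K (Q i) X₀ N) wt (Dd lab) (fun _ => ()) -
      δ * ((PQ (Q i)).card : ℝ) * WW K (Q i) X₀ N ≤
        cE (Om K (Q i) X₀ N) wt (Dd lab) (Rr (PQ (Q i))) := by
    by_contra hcon
    push Not at hcon
    have hstep : ∀ i < I, cE (Om K (Q (i + 1)) X₀ N) wt (Dd lab) (fun _ => ()) ≤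
        cE (Om K (Q i) X₀ N) wt (Dd lab) (fun _ => ()) - θ * ℓ * (1 / Real.log (Q i)) := by
      intro i hi
      have hp1 : ∀ p ∈ PQ (Q i), 1 ≤ p := fun p hp => (hprime i p hp).one_le
      have hXq : ∀ X ∈ Ioc X₀ N, (X : ℝ) / (K * Q (i + 1)) ≤ (X : ℝ) / (K * Q i) := by
        intro X _
        have e2 : (Q i : ℝ) ≤ Q (i + 1) := by exact_mod_cast hQmono i
        have e3 := hQr0 i
        gcongr
      have e1 := ce_le_add h1 (fun ω (_ : ω ∈ Om K (Q (i + 1)) X₀ N) => wt_nonneg ω) (Dd lab)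
        (Rr (PQ (Q i)))
      have e2 := ce_Rr h1 K (Q (i + 1)) X₀ N (PQ (Q i)) hp1
      have e3 := step1 h1 h2 h5 lab K (Q i) (Q (i + 1)) X₀ N (PQ (Q i)) hp1
        (fun X hX => hM2.trans (hXM (i + 1) hi X hX)) hXq (hXX i)
      have e4 : cE (Om K (Q (i + 1)) X₀ N) wt (Tp lab K (Q i)) (fun _ => ()) ≤
          CA * WW K (Q i) X₀ N := by
        rw [WW_eq]
        exact code_le h5 hCA0 hCA lab K (Q (i + 1)) X₀ N (fun X => (X : ℝ) / (K * Q i))
          (fun X hX => hM2.trans (hXM (i + 1) hi X hX)) hXq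
      have e5 := hcon i hi
      have e6 : c₂ * Q i / Real.log (Q i) ≤ ((PQ (Q i)).card : ℝ) := (hPr i).1
      have e7 : 4 * CA / δ ≤ ((PQ (Q i)).card : ℝ) := by
        refine le_trans ?_ e6
        have e8 := hQb (Q i) (by have := hQm i; omega)
        rw [div_le_div_iff₀ hδp (hlq i)]
        have e9 := mul_le_mul_of_nonneg_left e8 (by positivity : (0 : ℝ) ≤ 4 * CA)
        have e10 : 4 * CA * ((Q i : ℝ) * (c₂ * δ / (4 * CA))) = c₂ * Q i * δ := by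
          field_simp
        linarith
      exact decr (W' := WW K (Q (i + 1)) X₀ N) (W := WW K (Q i) X₀ N)
        (cD := cE (Om K (Q i) X₀ N) wt (Dd lab) (Rr (PQ (Q i))))
        (sl := ∑ p ∈ PQ (Q i), Real.log p) (cP := ((PQ (Q i)).card : ℝ)) (q := (Q i : ℝ))
        (q' := (Q (i + 1) : ℝ)) (CA := CA) (C₁ := C₁) (C₂ := C₂) (J := J)
        hKr (hQr0 i) (hQr0 (i + 1)) (hlq i) hδp hc₁ hC₁ hc₂ hC₂ hℓ0.le
        (Finset.sum_nonneg fun p hp => Real.log_nonneg (by exact_mod_cast hp1 p hp))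
        (WW_nonneg _ _ _ _) (by linarith) e5 (hWb (i + 1) hi).2 (hWb i hi.le).1 (hPr i).2.2.2
        e6 hJ (hQJ i) e7
    have hall : ∀ i ≤ I, cE (Om K (Q i) X₀ N) wt (Dd lab) (fun _ => ()) ≤
        cE (Om K (Q 0) X₀ N) wt (Dd lab) (fun _ => ()) -
          θ * ℓ * ∑ j ∈ range i, 1 / Real.log (Q j) := by
      intro i
      induction i with
      | zero => intro _; simp
      | succ i ih =>
        intro hi
        have e1 := ih (by omega)
        have e2 := hstep i (by omega)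
        rw [Finset.sum_range_succ, mul_add]
        linarith
    have e1 := hall I le_rfl
    have e2 := ce_nonneg h1 (fun ω (_ : ω ∈ Om K (Q I) X₀ N) => wt_nonneg ω) (Dd lab)
      (fun _ => ())
    have e3 : cE (Om K (Q 0) X₀ N) wt (Dd lab) (fun _ => ()) ≤ CA * (C₁ * ℓ) := by
      refine (code_le h5 hCA0 hCA lab K (Q 0) X₀ N (fun X => (X : ℝ))
        (fun X hX => hM2.trans (hXM 0 (Nat.zero_le _) X hX)) (hXX 0)).trans ?_
      refine mul_le_mul_of_nonneg_left ?_ hCA0.le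
      rw [hℓ, Finset.mul_sum]
      refine Finset.sum_le_sum fun X hX => ?_
      have e4 : Y₁ ≤ (X : ℝ) := hMY.trans ((hXM 0 (Nat.zero_le _) X hX).trans (hXX 0 X hX))
      have e5 := (hE X e4).2
      have hX0 : (0 : ℝ) < (X : ℝ) := by
        rw [Finset.mem_Ioc] at hX
        have : 0 < X := by omega
        positivity
      calc 1 / (X : ℝ) ^ 2 * ((edge 0 1 (X : ℝ)).card : ℝ) ≤ 1 / (X : ℝ) ^ 2 * (C₁ * X) :=
            mul_le_mul_of_nonneg_left e5 (by positivity)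
        _ = C₁ * (1 / (X : ℝ)) := by field_simp
    have e4 : θ * ℓ * (CA * C₁ / θ + 1) ≤ θ * ℓ * ∑ j ∈ range I, 1 / Real.log (Q j) :=
      mul_le_mul_of_nonneg_left hS (by positivity)
    have e5 : θ * ℓ * (CA * C₁ / θ + 1) = CA * (C₁ * ℓ) + θ * ℓ := by
      field_simp
    have e6 : 0 < θ * ℓ := by positivity
    linarith
  obtain ⟨i, hi, hgi⟩ := hgood
  refine ⟨Q i, by have := hQm i; omega, hmono hi.le, fun ζ hζ => ?_⟩
  have hlqi := hlq i
  have hmain := good_level h1 h4 lab K (Q i) X₀ N hK (by have := hQ2 i; omega) c₁ Cr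
    (δ * ((PQ (Q i)).card : ℝ) * WW K (Q i) X₀ N) (τ0 / Real.log (Q i)) B hc₁ hCr
    (by positivity) hgi
    (fun X hX y => by
      have e1 := hYr i ((X : ℝ) / (K * Q i)) ((hMr i hi).trans (hXM i hi.le X hX)) y
      convert e1 using 3)
    (hWb i hi.le).1 ζ hζ
  refine hmain.trans ?_
  have hfin := fin_est (W := WW K (Q i) X₀ N) (ℓ := ℓ) (q := (Q i : ℝ)) (lq := Real.log (Q i))
    (cP := ((PQ (Q i)).card : ℝ)) (s2 := ∑ p ∈ PQ (Q i), Real.log p ^ 2)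
    (L := Real.log 2 + Real.log (Cr / c₁)) (L0 := L0) (B := B) (ε := ε) (τ0 := τ0) (δ := δ)
    (C₁ := C₁) (C₂ := C₂) (hQr0 i) (hlq i) hε hC₁ hC₂ hL0p
    (by rw [hL0]; linarith [le_abs_self (Real.log 2 + Real.log (Cr / c₁))])
    (WW_nonneg _ _ _ _) hℓ0.le
    (by
      have e1 := (hWb i hi.le).2
      rw [le_div_iff₀ (mul_pos hK0 (hQr0 i))] at e1
      have e2 := WW_nonneg K (Q i) X₀ N
      have e3 := hQr0 i
      have e4 : WW K (Q i) X₀ N * (Q i : ℝ) ≤ WW K (Q i) X₀ N * (K * Q i) :=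
        mul_le_mul_of_nonneg_left (by nlinarith) e2
      linarith)
    (by
      have e1 := (hPr i).2.1
      rw [le_div_iff₀ (hlq i)] at e1
      linarith)
    (by
      have e1 : ∀ p ∈ PQ (Q i), Real.log (p : ℝ) ^ 2 ≤ 2 * Real.log (Q i) * Real.log p := by
        intro p hp
        obtain ⟨e2, e3, e4⟩ := mem_PQ hp
        have e5 : 0 ≤ Real.log (p : ℝ) := Real.log_nonneg (by exact_mod_cast e4.one_le)
        have e6 : Real.log (p : ℝ) ≤ 2 * Real.log (Q i) := by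
          have e7 : Real.log (p : ℝ) ≤ Real.log ((Q i : ℝ) ^ 2) := by
            refine Real.log_le_log (by exact_mod_cast e4.pos) ?_
            have e8 : (p : ℝ) ≤ 2 * (Q i : ℝ) := by exact_mod_cast e3
            nlinarith [hQr2 i]
          rw [Real.log_pow] at e7
          push_cast at e7
          exact e7
        rw [sq]
        exact mul_le_mul_of_nonneg_right e6 e5
      calc ∑ p ∈ PQ (Q i), Real.log (p : ℝ) ^ 2
          ≤ ∑ p ∈ PQ (Q i), 2 * Real.log (Q i) * Real.log p := Finset.sum_le_sum e1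
        _ = 2 * Real.log (Q i) * ∑ p ∈ PQ (Q i), Real.log p := by rw [Finset.mul_sum]
        _ ≤ 2 * Real.log (Q i) * (C₂ * Q i) :=
          mul_le_mul_of_nonneg_left (hPr i).2.2.2 (by positivity))
    hτ0 hδ (hQa (Q i) (by have := hQm i; omega))
  refine hfin.trans ?_
  exact mul_le_mul_of_nonneg_left hℓlog hε.le

end Pool.Agent.W409.EC
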