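import Pool.Agent.W78.EC.Defs2

/-! Project EC, part D7: consequences of the chain rule. -/

set_option autoImplicit false

namespace Pool.Agent.W409.EC

open Finset
open Pool.Agent.W78.GA Pool.Agent.W78.EC

section chain

variable {Ω A B C : Type} {s : Finset Ω} {w : Ω → ℝ}

lemma ce_nonneg (h : S_CE) (hw : ∀ ω ∈ s, 0 ≤ w ω) (D : Ω → A) (Y : Ω → B) :
    0 ≤ cE s w D Y := (h Ω A B Unit s w D Y (fun _ => ()) hw).1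

lemma ce_chain (h : S_CE) (hw : ∀ ω ∈ s, 0 ≤ w ω) (D : Ω → A) (Y : Ω → B) (Z : Ω → C) :
    cE s w (fun ω => (D ω, Z ω)) Y = cE s w Z Y + cE s w D (fun ω => (Z ω, Y ω)) :=
  (h Ω A B C s w D Y Z hw).2.2.1

lemma ce_map (h : S_CE) (hw : ∀ ω ∈ s, 0 ≤ w ω) (D : Ω → A) (Y : Ω → B) (Z : Ω → C)
    (φ : A → B → C) (hφ : ∀ ω ∈ s, Z ω = φ (D ω) (Y ω)) : cE s w Z Y ≤ cE s w D Y :=
  (h Ω A B C s w D Y Z hw).2.2.2.1 φ hφ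

lemma ce_cond (h : S_CE) (hw : ∀ ω ∈ s, 0 ≤ w ω) (D : Ω → A) (Y : Ω → B) (Z : Ω → C)
    (φ : B → C) (hφ : ∀ ω ∈ s, Z ω = φ (Y ω)) : cE s w D Y ≤ cE s w D Z :=
  (h Ω A B C s w D Y Z hw).2.2.2.2.1 φ hφ

lemma ce_card (h : S_CE) (hw : ∀ ω ∈ s, 0 ≤ w ω) (D : Ω → A) (Y : Ω → B) (n : ℕ) (hn : 1 ≤ n)
    (t : Finset A) (ht : t.card ≤ n) (hD : ∀ ω ∈ s, D ω ∈ t) :
    cE s w D Y ≤ (∑ ω ∈ s, w ω) * Real.log n :=
  (h Ω A B Unit s w D Y (fun _ => ()) hw).2.2.2.2.2.1 n hn ⟨t, ht, hD⟩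

open scoped Classical in
lemma ce_low (h : S_CE) (hw : ∀ ω ∈ s, 0 ≤ w ω) (D : Ω → A) (ρ : ℝ) (hρ : 0 < ρ)
    (hD : ∀ a : A, (∑ ω ∈ s.filter (fun ω => D ω = a), w ω) ≤ ρ * ∑ ω ∈ s, w ω) :
    (∑ ω ∈ s, w ω) * Real.log (1 / ρ) ≤ cE s w D (fun _ => ()) :=
  (h Ω A Unit Unit s w D (fun _ => ()) (fun _ => ()) hw).2.2.2.2.2.2.1 ρ hρ hD

/-- `H(D) ≤ H(Y) + H(D|Y)` -/
lemma ce_le_add (h : S_CE) (hw : ∀ ω ∈ s, 0 ≤ w ω) (D : Ω → A) (Y : Ω → B) :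
    cE s w D (fun _ => ()) ≤ cE s w Y (fun _ => ()) + cE s w D Y := by
  have h1 := ce_map h hw (fun ω => (D ω, Y ω)) (fun _ => ()) D (fun x _ => x.1)
    (fun ω _ => rfl)
  have h2 := ce_chain h hw D (fun _ => ()) Y
  have h3 := ce_cond h hw D (fun ω => (Y ω, ())) Y (fun x => x.1) (fun ω _ => rfl)
  linarith

/-- `H(Y|D) ≥ H(Y) + H(D|Y) - H(D)` -/
lemma ce_swap (h : S_CE) (hw : ∀ ω ∈ s, 0 ≤ w ω) (D : Ω → A) (Y : Ω → B) :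
    cE s w Y (fun _ => ()) + cE s w D Y - cE s w D (fun _ => ()) ≤ cE s w Y D := by
  have h1 := ce_chain h hw D (fun _ => ()) Y
  have h2 := ce_chain h hw Y (fun _ => ()) D
  have h3 := ce_map h hw (fun ω => (Y ω, D ω)) (fun _ => ()) (fun ω => (D ω, Y ω))
    (fun x _ => (x.2, x.1)) (fun ω _ => rfl)
  have h4 := ce_cond h hw Y (fun ω => (D ω, ())) D (fun x => x.1) (fun ω _ => rfl)
  have h5 := ce_cond h hw D Y (fun ω => (Y ω, ())) (fun x => (x, ())) (fun ω _ => rfl)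
  linarith

end chain

end Pool.Agent.W409.EC
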