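import Pool.Agent.W409.EC.Lev

/-! Project EC, part D7: the estimate at a good level. -/

set_option autoImplicit false

namespace Pool.Agent.W409.EC

open Finset
open Pool.Agent.W78.GA Pool.Agent.W78.EC

lemma mem_PQ {q p : ℕ} (h : p ∈ PQ q) : q < p ∧ p ≤ 2 * q ∧ p.Prime := by
  unfold PQ at h
  rw [Finset.mem_filter, Finset.mem_Ioc] at h
  exact ⟨h.1.1, h.1.2, h.2.1⟩

lemma rs_cast {p : ℕ} (hp : 1 ≤ p) (x : ℤ) : ((rs p x : ℕ) : ℤ) = x - p * (x / p) := by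
  unfold rs
  rw [Int.toNat_of_nonneg (Int.emod_nonneg _ (by exact_mod_cast (by omega : p ≠ 0)))]
  rw [Int.emod_def]

lemma rs_lt {p : ℕ} (hp : 1 ≤ p) (x : ℤ) : rs p x < p := by
  unfold rs
  have h1 : x % (p : ℤ) < p := Int.emod_lt_of_pos _ (by exact_mod_cast hp)
  have h2 : 0 ≤ x % (p : ℤ) := Int.emod_nonneg _ (by exact_mod_cast (by omega : p ≠ 0))
  omega

lemma res_mem {p : ℕ} (hp : 1 ≤ p) (e : Gi × Gi) (he : dt e.1 e.2 = 1) : res p e ∈ SL p := by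
  unfold SL res
  rw [Finset.mem_filter]
  constructor
  · simp only [Finset.mem_product, Finset.mem_range]
    exact ⟨rs_lt hp _, rs_lt hp _, rs_lt hp _, rs_lt hp _⟩
  · simp only
    rw [rs_cast hp, rs_cast hp, rs_cast hp, rs_cast hp]
    unfold dt at he
    generalize hA : e.1.re / (p : ℤ) = A
    generalize hB : e.1.im / (p : ℤ) = B
    generalize hC : e.2.re / (p : ℤ) = C
    generalize hD : e.2.im / (p : ℤ) = D
    refine ⟨-e.1.re * D - A * e.2.im + p * A * D + e.1.im * C + B * e.2.re - p * B * C, ?_⟩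
    linear_combination he

lemma edge_dt {X : ℝ} {e : Gi × Gi} (he : e ∈ edge 0 1 X) : dt e.1 e.2 = 1 := by
  unfold edge at he
  rw [Finset.mem_filter] at he
  exact he.2.1

lemma SL_pos {p : ℕ} (hp : 2 ≤ p) : 0 < (SL p).card := by
  rw [Finset.card_pos]
  refine ⟨(1, 0, 0, 1), ?_⟩
  unfold SL
  rw [Finset.mem_filter]
  constructor
  · simp only [Finset.mem_product, Finset.mem_range]
    omega
  · simp

open scoped Classical in
lemma good_level (h1 : S_CE) (h4 : S_DV) {A : Type} (lab : ℕ → Gi → A) (K q X₀ N : ℕ)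
    (hK : 1 ≤ K) (hq : 1 ≤ q) (c1 Cr x τ B : ℝ) (hc1 : 0 < c1) (hCr : 0 < Cr) (hτ : 0 < τ)
    (hlow : cE (Om K q X₀ N) wt (Dd lab) (fun _ => ()) - x ≤
      cE (Om K q X₀ N) wt (Dd lab) (Rr (PQ q)))
    (hres : ∀ X ∈ Ioc X₀ N, ∀ y : ℕ → ℕ × ℕ × ℕ × ℕ,
      (((edge 0 1 ((X : ℝ) / (K * q))).filter (fun e => ∀ p ∈ PQ q, res p e = y p)).card : ℝ) ≤
        Cr * ((X : ℝ) / (K * q)) / ∏ p ∈ PQ q, ((SL p).card : ℝ))
    (hW : c1 * (∑ X ∈ Ioc X₀ N, 1 / (X : ℝ)) / (K * q) ≤ WW K q X₀ N)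
    (ζ : ℕ → Tr A → ℕ × ℕ × ℕ × ℕ → ℝ) (hζ : ∀ p T y, |ζ p T y| ≤ B) :
    ∑ X ∈ Ioc X₀ N, 1 / (X : ℝ) ^ 2 * ∑ e ∈ edge 0 1 ((X : ℝ) / (K * q)),
      |∑ p ∈ PQ q, Real.log p * (ζ p (TT (lab X) X e) (res p e) - av p (ζ p) (TT (lab X) X e))| ≤
    1 / τ * (WW K q X₀ N * (Real.log 2 + Real.log (Cr / c1)) + x) +
      WW K q X₀ N * (τ * (2 * B ^ 2) * ∑ p ∈ PQ q, Real.log p ^ 2) := by
  have hw : ∀ ω ∈ Om K q X₀ N, 0 ≤ wt ω := fun ω _ => wt_nonneg ω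
  have hSL : ∀ p ∈ PQ q, (0 : ℝ) < ((SL p).card : ℝ) := fun p hp => by
    exact_mod_cast SL_pos (mem_PQ hp).2.2.two_le
  have hprod : 0 < ∏ p ∈ PQ q, ((SL p).card : ℝ) := Finset.prod_pos hSL
  have hKq : (0 : ℝ) < K * q := by positivity
  -- the entropy of the residues
  have hY : WW K q X₀ N * Real.log (1 / (Cr / (c1 * ∏ p ∈ PQ q, ((SL p).card : ℝ)))) ≤
      cE (Om K q X₀ N) wt (Rr (PQ q)) (fun _ => ()) := by
    refine ce_low h1 hw (Rr (PQ q)) _ (by positivity) fun a => ?_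
    have e1 : ∑ ω ∈ (Om K q X₀ N).filter (fun ω => Rr (PQ q) ω = a), wt ω ≤
        ∑ X ∈ Ioc X₀ N, 1 / (X : ℝ) ^ 2 *
          (Cr * ((X : ℝ) / (K * q)) / ∏ p ∈ PQ q, ((SL p).card : ℝ)) := by
      rw [Finset.sum_filter]
      unfold Om
      rw [Finset.sum_sigma]
      refine Finset.sum_le_sum fun X hX => ?_
      have h2 : (0 : ℝ) ≤ 1 / (X : ℝ) ^ 2 := by positivity
      refine le_trans ?_ (mul_le_mul_of_nonneg_left (hres X hX a) h2)
      rw [← Finset.sum_filter]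
      have h9 : ∀ e ∈ (edge 0 1 ((X : ℝ) / (K * q))).filter
          (fun e => Rr (PQ q) (⟨X, e⟩ : Σ _ : ℕ, Gi × Gi) = a),
          wt ⟨X, e⟩ = 1 / (X : ℝ) ^ 2 := fun _ _ => rfl
      rw [Finset.sum_congr rfl h9, Finset.sum_const, nsmul_eq_mul, mul_comm]
      refine mul_le_mul_of_nonneg_left ?_ h2
      norm_cast
      refine Finset.card_le_card fun e he => ?_
      rw [Finset.mem_filter] at he ⊢
      refine ⟨he.1, fun p hp => ?_⟩
      have h3 := congrFun he.2 p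
      unfold Rr rsf at h3
      rw [if_pos hp] at h3
      exact h3
    have e2 : ∑ X ∈ Ioc X₀ N, 1 / (X : ℝ) ^ 2 *
          (Cr * ((X : ℝ) / (K * q)) / ∏ p ∈ PQ q, ((SL p).card : ℝ)) =
        Cr / (c1 * ∏ p ∈ PQ q, ((SL p).card : ℝ)) *
          (c1 * (∑ X ∈ Ioc X₀ N, 1 / (X : ℝ)) / (K * q)) := by
      rw [Finset.mul_sum, Finset.sum_div, Finset.mul_sum]
      refine Finset.sum_congr rfl fun X hX => ?_
      have hX0 : (X : ℝ) ≠ 0 := by
        rw [Finset.mem_Ioc] at hX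
        have : 0 < X := by omega
        positivity
      have hprod' := hprod.ne'
      field_simp
    refine e1.trans (e2.le.trans ?_)
    exact mul_le_mul_of_nonneg_left hW (by positivity)
  have hlog : Real.log (1 / (Cr / (c1 * ∏ p ∈ PQ q, ((SL p).card : ℝ)))) =
      ∑ p ∈ PQ q, Real.log ((SL p).card : ℝ) - Real.log (Cr / c1) := by
    rw [← Real.log_prod (fun p hp => (hSL p hp).ne'), ← Real.log_div hprod.ne' (by positivity)]
    congr 1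
    have hprod' := hprod.ne'
    field_simp
  rw [hlog] at hY
  have hsw := ce_swap h1 hw (Dd lab) (Rr (PQ q))
  have hdv := h4 (Σ _ : ℕ, Gi × Gi) (Tr A) (ℕ × ℕ × ℕ × ℕ) (Om K q X₀ N) wt (Dd lab) (PQ q)
    (fun ω p => res p ω.2) SL (fun p => Real.log p) ζ B τ hw (by
      rintro ⟨X, e⟩ hω p hp
      unfold Om at hω
      rw [Finset.mem_sigma] at hω
      exact res_mem (mem_PQ hp).2.2.one_le e (edge_dt hω.2)) hζ hτ
  have hlhs : ∑ X ∈ Ioc X₀ N, 1 / (X : ℝ) ^ 2 * ∑ e ∈ edge 0 1 ((X : ℝ) / (K * q)),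
      |∑ p ∈ PQ q, Real.log p *
        (ζ p (TT (lab X) X e) (res p e) - av p (ζ p) (TT (lab X) X e))| =
      ∑ ω ∈ Om K q X₀ N, wt ω * |∑ p ∈ PQ q, (fun p : ℕ => Real.log p) p *
        (ζ p (Dd lab ω) ((fun (ω : Σ _ : ℕ, Gi × Gi) p => res p ω.2) ω p) -
          (∑ y ∈ SL p, ζ p (Dd lab ω) y) / ((SL p).card : ℝ))| := by
    unfold Om
    rw [Finset.sum_sigma]
    refine Finset.sum_congr rfl fun X _ => ?_
    rw [Finset.mul_sum]
    rfl
  rw [hlhs]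
  refine hdv.trans ?_
  have hτ' : 0 ≤ 1 / τ := by positivity
  refine add_le_add (mul_le_mul_of_nonneg_left ?_ hτ') le_rfl
  have h6 : cE (Om K q X₀ N) wt (rsf (PQ q) (fun ω p => res p ω.2)) (Dd lab) =
      cE (Om K q X₀ N) wt (Rr (PQ q)) (Dd lab) := rfl
  rw [h6]
  have h7 : (∑ ω ∈ Om K q X₀ N, wt ω) = WW K q X₀ N := rfl
  rw [h7]
  nlinarith [hsw, hY, hlow]

end Pool.Agent.W409.EC
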