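import Pool.Agent.W409.EC.Chain

/-! Project EC, part D7: the levels. -/

set_option autoImplicit false

namespace Pool.Agent.W409.EC

open Finset
open Pool.Agent.W78.GA Pool.Agent.W78.EC

/-- the probability space of the level `q` -/
noncomputable def Om (K q X₀ N : ℕ) : Finset (Σ _ : ℕ, Gi × Gi) :=
  (Ioc X₀ N).sigma (fun X => edge 0 1 ((X : ℝ) / (K * q)))

/-- the weight -/
noncomputable def wt (ω : Σ _ : ℕ, Gi × Gi) : ℝ := 1 / (ω.1 : ℝ) ^ 2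

lemma wt_nonneg (ω : Σ _ : ℕ, Gi × Gi) : 0 ≤ wt ω := by unfold wt; positivity

/-- the tree -/
noncomputable def Dd {A : Type} (lab : ℕ → Gi → A) (ω : Σ _ : ℕ, Gi × Gi) : Tr A :=
  TT (lab ω.1) ω.1 ω.2

/-- the top of the tree -/
noncomputable def Tp {A : Type} (lab : ℕ → Gi → A) (K q : ℕ) (ω : Σ _ : ℕ, Gi × Gi) : Tr A :=
  TT (lab ω.1) ((ω.1 : ℝ) / (K * q)) ω.2

/-- the residues -/
def Rr (P : Finset ℕ) : (Σ _ : ℕ, Gi × Gi) → ℕ → ℕ × ℕ × ℕ × ℕ := rsf P (fun ω p => res p ω.2)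

/-- the total weight -/
noncomputable def WW (K q X₀ N : ℕ) : ℝ := ∑ ω ∈ Om K q X₀ N, wt ω

lemma WW_eq (K q X₀ N : ℕ) : WW K q X₀ N =
    ∑ X ∈ Ioc X₀ N, 1 / (X : ℝ) ^ 2 * ((edge 0 1 ((X : ℝ) / (K * q))).card : ℝ) := by
  unfold WW Om wt
  rw [Finset.sum_sigma]
  refine Finset.sum_congr rfl fun X _ => ?_
  simp only
  rw [Finset.sum_const, nsmul_eq_mul, mul_comm]

lemma leafsum (h5 : S_TREE) {A : Type} (lab : Gi → A) {Y Y' : ℝ} (hY : 2 ≤ Y) (hYY : Y ≤ Y') :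
    ∑ e ∈ edge 0 1 Y, (1 + ((TT lab Y' e).size : ℝ)) ≤ ((edge 0 1 Y').card : ℝ) := by
  classical
  have h1 : ∀ e ∈ edge 0 1 Y, (1 + ((TT lab Y' e).size : ℝ)) =
      (((lv (TT lab Y' e) e.1 e.2).toFinset.card : ℕ) : ℝ) := by
    intro e he
    obtain ⟨h2, h3, h4⟩ := (h5 A).1 lab Y Y' e hY hYY he
    rw [List.toFinset_card_of_nodup h2, ← h4]
    push_cast
    ring
  rw [Finset.sum_congr rfl h1, ← Nat.cast_sum]
  norm_cast
  rw [← Finset.card_biUnion]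
  · refine Finset.card_le_card (Finset.biUnion_subset.2 fun e he f hf => ?_)
    exact ((h5 A).1 lab Y Y' e hY hYY he).2.1 f (List.mem_toFinset.1 hf)
  · intro e he e' he' hne
    rw [Finset.mem_coe] at he he'
    rw [Function.onFun, Finset.disjoint_left]
    intro f hf hf'
    rw [List.mem_toFinset] at hf hf'
    have hfe := ((h5 A).1 lab Y Y' e hY hYY he).2.1 f hf
    obtain ⟨e0, -, hu⟩ := (h5 A).2.1 lab Y Y' hY hYY f hfe
    exact hne ((hu e ⟨he, hf⟩).trans (hu e' ⟨he', hf'⟩).symm)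

lemma code_le (h5 : S_TREE) {A : Type} {CA : ℝ} (hCA0 : 0 < CA)
    (hCA : ∀ (Ω : Type) (s : Finset Ω) (w : Ω → ℝ) (T : Ω → Tr A), (∀ ω ∈ s, 0 ≤ w ω) →
      cE s w T (fun _ => ()) ≤ CA * ∑ ω ∈ s, w ω * (1 + (T ω).size))
    (lab : ℕ → Gi → A) (K q X₀ N : ℕ) (g : ℕ → ℝ)
    (hX : ∀ X ∈ Ioc X₀ N, 2 ≤ (X : ℝ) / (K * q)) (hg : ∀ X ∈ Ioc X₀ N, (X : ℝ) / (K * q) ≤ g X) :
    cE (Om K q X₀ N) wt (fun ω => TT (lab ω.1) (g ω.1) ω.2) (fun _ => ()) ≤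
      CA * ∑ X ∈ Ioc X₀ N, 1 / (X : ℝ) ^ 2 * ((edge 0 1 (g X)).card : ℝ) := by
  refine (hCA _ _ _ _ fun ω _ => wt_nonneg ω).trans ?_
  refine mul_le_mul_of_nonneg_left ?_ hCA0.le
  unfold Om
  rw [Finset.sum_sigma]
  refine Finset.sum_le_sum fun X hX' => ?_
  have h1 := leafsum h5 (lab X) (hX X hX') (hg X hX')
  have h2 : (0 : ℝ) ≤ 1 / (X : ℝ) ^ 2 := by positivity
  calc ∑ e ∈ edge 0 1 ((X : ℝ) / (K * q)), wt ⟨X, e⟩ * (1 + ((TT (lab X) (g X) e).size : ℝ))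
      = 1 / (X : ℝ) ^ 2 * ∑ e ∈ edge 0 1 ((X : ℝ) / (K * q)),
        (1 + ((TT (lab X) (g X) e).size : ℝ)) := by
        rw [Finset.mul_sum]
        rfl
    _ ≤ _ := mul_le_mul_of_nonneg_left h1 h2

/-- the step of the entropy decrement -/
lemma step1 (h1 : S_CE) (h2 : S_TUP) (h5 : S_TREE) {A : Type} (lab : ℕ → Gi → A)
    (K q q' X₀ N : ℕ) (P : Finset ℕ) (hP : ∀ p ∈ P, 1 ≤ p)
    (hX : ∀ X ∈ Ioc X₀ N, 2 ≤ (X : ℝ) / (K * q'))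
    (hqq : ∀ X ∈ Ioc X₀ N, (X : ℝ) / (K * q') ≤ (X : ℝ) / (K * q))
    (hqX : ∀ X ∈ Ioc X₀ N, (X : ℝ) / (K * q) ≤ X) :
    cE (Om K q' X₀ N) wt (Dd lab) (Rr P) ≤
      cE (Om K q' X₀ N) wt (Tp lab K q) (fun _ => ()) +
        cE (Om K q X₀ N) wt (Dd lab) (Rr P) := by
  classical
  obtain ⟨h5a, h5b, ⟨Φ, hΦ⟩, ⟨Ψ, hΨ⟩⟩ := h5 A
  let l : (Σ _ : ℕ, Gi × Gi) → List (Gi × Gi) := fun ω => lv (Tp lab K q ω) ω.2.1 ω.2.2
  let ch : (Σ _ : ℕ, Gi × Gi) → ℕ → (Σ _ : ℕ, Gi × Gi) := fun ω j =>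
    ⟨ω.1, ((l ω)[j]?).getD (0, 0)⟩
  let par : (Σ _ : ℕ, Gi × Gi) → (Σ _ : ℕ, Gi × Gi) := fun c =>
    if h : ∃ e, e ∈ edge 0 1 ((c.1 : ℝ) / (K * q')) ∧ c.2 ∈ l ⟨c.1, e⟩ then ⟨c.1, h.choose⟩ else c
  let ix : (Σ _ : ℕ, Gi × Gi) → ℕ := fun c => (l (par c)).idxOf c.2
  have hw : ∀ (q : ℕ), ∀ ω ∈ Om K q X₀ N, 0 ≤ wt ω := fun _ ω _ => wt_nonneg ω
  have hmem : ∀ (q : ℕ) (X : ℕ) (e : Gi × Gi), (⟨X, e⟩ : Σ _ : ℕ, Gi × Gi) ∈ Om K q X₀ N ↔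
      X ∈ Ioc X₀ N ∧ e ∈ edge 0 1 ((X : ℝ) / (K * q)) := by
    intro q X e
    unfold Om
    rw [Finset.mem_sigma]
  have hlen : ∀ ω ∈ Om K q' X₀ N, (l ω).Nodup ∧ (∀ f ∈ l ω, f ∈ edge 0 1 ((ω.1 : ℝ) / (K * q))) ∧
      (Tp lab K q ω).size + 1 = (l ω).length := by
    rintro ⟨X, e⟩ hω
    rw [hmem] at hω
    exact h5a (lab X) _ _ e (hX X hω.1) (hqq X hω.1) hω.2
  have hpar : ∀ c ∈ Om K q X₀ N, par c ∈ Om K q' X₀ N ∧ (par c).1 = c.1 ∧ c.2 ∈ l (par c) := by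
    rintro ⟨X, f⟩ hc
    rw [hmem] at hc
    obtain ⟨e, he, -⟩ := h5b (lab X) _ _ (hX X hc.1) (hqq X hc.1) f hc.2
    have hex : ∃ e, e ∈ edge 0 1 ((X : ℝ) / (K * q')) ∧ f ∈ l ⟨X, e⟩ := ⟨e, he⟩
    have h3 : par ⟨X, f⟩ = ⟨X, hex.choose⟩ := dif_pos hex
    rw [h3, hmem]
    exact ⟨⟨hc.1, hex.choose_spec.1⟩, rfl, hex.choose_spec.2⟩
  have hchild : ∀ ω ∈ Om K q' X₀ N, ∀ j < (l ω).length, ch ω j ∈ Om K q X₀ N ∧
      par (ch ω j) = ω ∧ (ch ω j).2 = (l ω)[j]! ∧ ix (ch ω j) = j := by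
    intro ω hω j hj
    obtain ⟨h3, h4, h6⟩ := hlen ω hω
    have h7 : (l ω)[j]? = some ((l ω)[j]) := List.getElem?_eq_getElem hj
    have h8 : ch ω j = ⟨ω.1, (l ω)[j]⟩ := by
      show (⟨ω.1, ((l ω)[j]?).getD (0, 0)⟩ : Σ _ : ℕ, Gi × Gi) = _
      rw [h7]
      rfl
    have hωm := hω
    obtain ⟨X, e⟩ := ω
    rw [hmem] at hωm
    have h9 : par (ch ⟨X, e⟩ j) = ⟨X, e⟩ := by
      rw [h8]
      have hex : ∃ e', e' ∈ edge 0 1 ((X : ℝ) / (K * q')) ∧ (l ⟨X, e⟩)[j] ∈ l ⟨X, e'⟩ :=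
        ⟨e, hωm.2, List.getElem_mem hj⟩
      have h10 : par ⟨X, (l ⟨X, e⟩)[j]⟩ = ⟨X, hex.choose⟩ := dif_pos hex
      rw [h10]
      have h11 := h4 _ (List.getElem_mem hj)
      obtain ⟨e0, -, hu⟩ := h5b (lab X) _ _ (hX X hωm.1) (hqq X hωm.1) _ h11
      have h12 := hu hex.choose hex.choose_spec
      have h13 := hu e ⟨hωm.2, List.getElem_mem hj⟩
      rw [h12, h13]
    refine ⟨?_, h9, ?_, ?_⟩
    · rw [h8, hmem]
      exact ⟨hωm.1, h4 _ (List.getElem_mem hj)⟩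
    · rw [h8, getElem!_pos (l ⟨X, e⟩) j hj]
    · show (l (par (ch ⟨X, e⟩ j))).idxOf (ch ⟨X, e⟩ j).2 = j
      rw [h9, h8]
      exact h3.idxOf_getElem j hj
  let L : (Σ _ : ℕ, Gi × Gi) → List (Tr A) := fun ω =>
    (List.range ((Tp lab K q ω).size + 1)).map (fun j => Dd lab (ch ω j))
  have hL : ∀ ω ∈ Om K q' X₀ N, L ω = (l ω).map (TT (lab ω.1) ω.1) := by
    intro ω hω
    obtain ⟨h3, h4, h6⟩ := hlen ω hω
    refine List.ext_getElem ?_ fun j hj hj' => ?_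
    · show (List.map _ _).length = _
      rw [List.length_map, List.length_map, List.length_range, h6]
    · have hj2 : j < (l ω).length := by rwa [List.length_map] at hj'
      show (List.map _ _)[j] = _
      rw [List.getElem_map, List.getElem_map, List.getElem_range]
      show TT (lab ω.1) ω.1 ((((l ω)[j]?).getD (0, 0))) = _
      rw [List.getElem?_eq_getElem hj2]
      rfl
  have e1 : cE (Om K q' X₀ N) wt (Dd lab) (Rr P) ≤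
      cE (Om K q' X₀ N) wt (fun ω => (L ω, Tp lab K q ω)) (Rr P) := by
    refine ce_map h1 (hw q') (fun ω => (L ω, Tp lab K q ω)) (Rr P) (Dd lab)
      (fun x _ => Φ x.2 x.1) fun ω hω => ?_
    show Dd lab ω = Φ (Tp lab K q ω) (L ω)
    rw [hL ω hω]
    obtain ⟨X, e⟩ := ω
    rw [hmem] at hω
    exact hΦ (lab X) _ _ _ e (hX X hω.1) (hqq X hω.1) (hqX X hω.1) hω.2
  have e2 := ce_chain h1 (hw q') L (Rr P) (Tp lab K q)
  have e3 : cE (Om K q' X₀ N) wt (Tp lab K q) (Rr P) ≤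
      cE (Om K q' X₀ N) wt (Tp lab K q) (fun _ => ()) :=
    ce_cond h1 (hw q') (Tp lab K q) (Rr P) (fun _ => ()) (fun _ => ()) (fun _ _ => rfl)
  have e4 : cE (Om K q' X₀ N) wt L (fun ω => (Tp lab K q ω, Rr P ω)) ≤
      cE (Om K q X₀ N) wt (Dd lab) (Rr P) := by
    refine h2 (Σ _ : ℕ, Gi × Gi) (Σ _ : ℕ, Gi × Gi) (Tr A) (Tr A) (ℕ → ℕ × ℕ × ℕ × ℕ)
      (ℕ → ℕ × ℕ × ℕ × ℕ) (Om K q' X₀ N) (Om K q X₀ N) wt wt par ix (fun T => T.size + 1)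
      (Tp lab K q) (Rr P) (Dd lab) (Rr P) ch
      (fun T j Y => fun p => if p ∈ P then Ψ T j p (Y p) else default) (hw q') ?_ ?_ ?_
    · intro c hc
      obtain ⟨h3, h4, h6⟩ := hpar c hc
      have h7 : ix c < (l (par c)).length := List.idxOf_lt_length_iff.2 h6
      refine ⟨h3, ?_, ?_, ?_⟩
      · show ix c < (Tp lab K q (par c)).size + 1
        rw [(hlen _ h3).2.2]
        exact h7
      · show (⟨(par c).1, ((l (par c))[ix c]?).getD (0, 0)⟩ : Σ _ : ℕ, Gi × Gi) = c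
        rw [List.getElem?_eq_getElem h7, h4]
        show (⟨c.1, (l (par c))[ix c]⟩ : Σ _ : ℕ, Gi × Gi) = c
        rw [List.getElem_idxOf h7]
      · unfold wt
        rw [h4]
    · intro ω hω j hj
      have hj' : j < (l ω).length := by
        rw [← (hlen ω hω).2.2]
        exact hj
      obtain ⟨h3, h4, -, h6⟩ := hchild ω hω j hj'
      exact ⟨h3, h4, h6⟩
    · intro c hc
      obtain ⟨h3, h4, h6⟩ := hpar c hc
      have h7 : ix c < (l (par c)).length := List.idxOf_lt_length_iff.2 h6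
      funext p
      show (if p ∈ P then res p c.2 else default) =
        if p ∈ P then Ψ (Tp lab K q (par c)) (ix c) p
          (if p ∈ P then res p (par c).2 else default) else default
      by_cases hp : p ∈ P
      · rw [if_pos hp, if_pos hp, if_pos hp]
        refine hΨ (Tp lab K q (par c)) (par c).2 c.2 (ix c) p (hP p hp) ?_
        show (l (par c))[ix c]? = some c.2
        rw [List.getElem?_eq_getElem h7, List.getElem_idxOf h7]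
      · rw [if_neg hp, if_neg hp]
  linarith

end Pool.Agent.W409.EC
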